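import Mathlib

set_option autoImplicit false
open Real Filter Finset
open scoped ContDiff

namespace Pool.Agent.H.MP_30394b_an

/-- auxiliary constants -/
noncomputable def W (n : ℕ) : ℝ := 2 + n + 2 ^ (2 * 3 ^ n) + (2 * 3 ^ n).factorial * n ^ (2 * 3 ^ n)

/-- shifted frequencies -/
noncomputable def M : ℕ → ℝ
  | 0 => 1
  | n + 1 => ((n + 1) * M n ^ (2 * 3 ^ n) + W n) ^ (n + 1)

/-- growth scale -/
noncomputable def U (n : ℕ) : ℝ := (n + 1) * M n ^ (2 * 3 ^ n) + W n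

/-- frequencies -/
noncomputable def B (n : ℕ) : ℝ := U n ^ (n + 1)

theorem W_ge (n : ℕ) : 2 ≤ W n ∧ (n : ℝ) ≤ W n ∧ 2 ^ (2 * 3 ^ n) ≤ W n ∧
    ((2 * 3 ^ n).factorial : ℝ) * n ^ (2 * 3 ^ n) ≤ W n := by
  have a1 : (0 : ℝ) ≤ n := n.cast_nonneg
  have a2 : (0 : ℝ) ≤ 2 ^ (2 * 3 ^ n) := by positivity
  have a3 : (0 : ℝ) ≤ ((2 * 3 ^ n).factorial : ℝ) * n ^ (2 * 3 ^ n) := by positivity
  unfold W
  refine ⟨?_, ?_, ?_, ?_⟩ <;> linarith

theorem M_one (n : ℕ) : 1 ≤ M n := by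
  induction n with
  | zero => exact le_rfl
  | succ n ih =>
    have : 0 ≤ (n + 1) * M n ^ (2 * 3 ^ n) := by positivity
    exact one_le_pow₀ (by linarith [(W_ge n).1])

theorem W_le (n : ℕ) : W n ≤ U n := by
  have := M_one n
  have : 0 ≤ (n + 1) * M n ^ (2 * 3 ^ n) := by positivity
  unfold U; linarith

theorem U_two (n : ℕ) : 2 ≤ U n := (W_ge n).1.trans (W_le n)

theorem U_one (n : ℕ) : 1 ≤ U n := one_le_two.trans (U_two n)

theorem B_one (n : ℕ) : 1 ≤ B n := one_le_pow₀ (U_one n)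

theorem B_ge (n : ℕ) : 2 ^ n ≤ B n :=
  (pow_le_pow_left₀ (by norm_num) (U_two n) n).trans (pow_le_pow_right₀ (U_one n) n.le_succ)

theorem M_mono : Monotone M := monotone_nat_of_le_succ fun n => by
  have a0 := M_one n
  have a1 : M n ≤ M n ^ (2 * 3 ^ n) := le_self_pow₀ a0 (by positivity)
  have a2 : M n ≤ U n := by
    unfold U
    nlinarith [(W_ge n).1, n.cast_nonneg (α := ℝ)]
  exact a2.trans (le_self_pow₀ (U_one n) n.succ_ne_zero)

theorem B_le {m n : ℕ} (h : m < n) : B m ≤ M n := M_mono (show m + 1 ≤ n from h)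

/-- derivatives of the building blocks -/
noncomputable def hh (k n : ℕ) (x : ℝ) : ℝ := (B n ^ k / B n ^ (3 ^ n)) * cos (B n * x + k * (π / 2))

theorem hh_le (k n : ℕ) (x : ℝ) : |hh k n x| ≤ B n ^ k / B n ^ (3 ^ n) := by
  have := B_one n
  unfold hh
  rw [abs_mul, abs_of_nonneg (by positivity : 0 ≤ B n ^ k / _)]
  exact mul_le_of_le_one_right (by positivity) (abs_cos_le_one _)

theorem hh_deriv (k n : ℕ) (y : ℝ) : HasDerivAt (hh k n) (hh (k + 1) n y) y := by
  have h1 : HasDerivAt (fun y => B n * y + k * (π / 2)) (B n) y := by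
    simpa using ((hasDerivAt_id y).const_mul (B n)).add_const (k * (π / 2))
  refine (h1.cos.const_mul (B n ^ k / B n ^ (3 ^ n))).congr_deriv ?_
  unfold hh
  have : B n * y + ((k + 1 : ℕ) : ℝ) * (π / 2) = (B n * y + k * (π / 2)) + π / 2 := by
    push_cast; ring
  rw [this, cos_add_pi_div_two]; ring

theorem term_le {c : ℕ → ℝ} (hc : ∀ n, |c n| ≤ 1) (k n : ℕ) (x : ℝ) :
    ‖c n * hh k n x‖ ≤ B n ^ k / B n ^ (3 ^ n) := by
  rw [Real.norm_eq_abs, abs_mul]
  exact (mul_le_of_le_one_left (abs_nonneg _) (hc n)).trans (hh_le k n x)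

theorem ratio_le {k n : ℕ} (h : k + 1 ≤ 3 ^ n) : B n ^ k / B n ^ (3 ^ n) ≤ (1 / 2) ^ n := by
  have h1 := B_one n
  rw [div_le_iff₀ (by positivity), one_div_pow, div_mul_eq_mul_div, le_div_iff₀ (by positivity),
    one_mul]
  refine le_trans ?_ (pow_le_pow_right₀ h1 h)
  rw [pow_succ]
  exact mul_le_mul_of_nonneg_left (B_ge n) (by positivity)

theorem ratio_summable (k : ℕ) : Summable fun n => B n ^ k / B n ^ (3 ^ n) := by
  refine Summable.of_norm_bounded_eventually_nat summable_geometric_two ?_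
  filter_upwards [eventually_ge_atTop (k + 1)] with n hn
  have := B_one n
  rw [Real.norm_eq_abs, abs_of_nonneg (by positivity)]
  exact ratio_le (hn.trans (Nat.lt_pow_self (by norm_num)).le)

theorem term_summable {c : ℕ → ℝ} (hc : ∀ n, |c n| ≤ 1) (k : ℕ) (x : ℝ) :
    Summable fun n => c n * hh k n x :=
  Summable.of_norm_bounded (ratio_summable k) fun n => term_le hc k n x

/-- lacunary series and its derivatives -/
noncomputable def D (c : ℕ → ℝ) (k : ℕ) (x : ℝ) : ℝ := ∑' n, c n * hh k n x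

theorem D_deriv {c : ℕ → ℝ} (hc : ∀ n, |c n| ≤ 1) (k : ℕ) (x : ℝ) :
    HasDerivAt (D c k) (D c (k + 1) x) x :=
  hasDerivAt_tsum (ratio_summable (k + 1)) (fun n y => (hh_deriv k n y).const_mul (c n))
    (fun n y => term_le hc (k + 1) n y) (term_summable hc k 0) x

theorem D_le {c : ℕ → ℝ} (hc : ∀ n, |c n| ≤ 1) {n k : ℕ} (h0 : c n = 0) (hk : k ≤ 2 * 3 ^ n)
    (x : ℝ) : |D c k x| ≤ U n := by
  unfold D U
  rw [← (term_summable hc k x).sum_add_tsum_nat_add (n + 1)]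
  refine (abs_add_le _ _).trans (add_le_add ?_ (le_trans ?_ (W_ge n).1))
  · refine (abs_sum_le_sum_abs _ _).trans ?_
    have := sum_le_card_nsmul (range (n + 1)) (fun m => |c m * hh k m x|)
      (M n ^ (2 * 3 ^ n)) fun m hm => by
        have h2 := M_one n
        rcases (Nat.lt_succ_iff.1 (mem_range.1 hm)).eq_or_lt with rfl | hm
        · rw [h0, zero_mul, abs_zero]; positivity
        have h1 := B_one m
        refine (term_le hc k m x).trans ((div_le_self (by positivity) (one_le_pow₀ h1)).trans ?_)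
        exact (pow_le_pow_left₀ (by linarith) (B_le hm) _).trans (pow_le_pow_right₀ h2 hk)
    simpa using this
  · rw [← Real.norm_eq_abs]
    refine tsum_of_norm_bounded hasSum_geometric_two fun m => ?_
    refine (term_le hc k _ x).trans ((ratio_le ?_).trans
      (pow_le_pow_of_le_one (by norm_num) (by norm_num) (by omega)))
    have a1 : 3 ^ (n + 1) ≤ 3 ^ (m + (n + 1)) := Nat.pow_le_pow_right (by norm_num) (by omega)
    have a2 : 0 < 3 ^ n := by positivity
    rw [pow_succ] at a1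
    omega

variable {𝕜 : Type*} [RCLike 𝕜]

theorem chain {g : ℕ → ℝ → ℝ} (h : ∀ k x, HasDerivAt (g k) (g (k + 1) x) x) :
    ContDiff ℝ ∞ (fun x => (g 0 x : 𝕜)) ∧
      ∀ k, iteratedDeriv k (fun x => (g 0 x : 𝕜)) = fun x => (g k x : 𝕜) := by
  have d : ∀ k x, HasDerivAt (fun x => (g k x : 𝕜)) (g (k + 1) x : 𝕜) x := fun k x =>
    (RCLike.ofRealCLM (K := 𝕜)).hasFDerivAt.comp_hasDerivAt x (h k x)
  have e : ∀ k, iteratedDeriv k (fun x => (g 0 x : 𝕜)) = fun x => (g k x : 𝕜) := fun k => by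
    induction k with
    | zero => simp
    | succ k ih => rw [iteratedDeriv_succ, ih]; exact funext fun x => (d k x).deriv
  exact ⟨contDiff_of_differentiable_iteratedDeriv fun m _ => by
    rw [e]; exact fun x => (d m x).differentiableAt, e⟩

/-- families of smooth functions with controlled derivatives at `x` -/
def Tame (x : ℝ) (w : ℕ → ℕ → ℝ) (g : ℕ → ℝ → 𝕜) : Prop :=
  (∀ n, ContDiff ℝ ∞ (g n)) ∧ ∃ d, ∀ n i, i ≤ 2 * 3 ^ n → ‖iteratedDeriv i (g n) x‖ ≤ U n ^ d * w n i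

variable {x : ℝ} {w : ℕ → ℕ → ℝ}

theorem cd {g : ℝ → 𝕜} (h : ContDiff ℝ ∞ g) (i : ℕ) : ContDiffAt ℝ i g x :=
  (h.of_le (by exact_mod_cast le_top)).contDiffAt

theorem Tame.add {g g' : ℕ → ℝ → 𝕜} (hw : ∀ n i, 0 ≤ w n i) (h : Tame x w g) (h' : Tame x w g') :
    Tame x w fun n => g n + g' n := by
  obtain ⟨c, d, h⟩ := h
  obtain ⟨c', d', h'⟩ := h'
  refine ⟨fun n => (c n).add (c' n), d + d' + 1, fun n i hi => ?_⟩
  rw [iteratedDeriv_add (cd (c n) i) (cd (c' n) i)]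
  have a1 := mul_le_mul_of_nonneg_right (pow_le_pow_right₀ (U_one n) (Nat.le_add_right d d')) (hw n i)
  have a2 := mul_le_mul_of_nonneg_right (pow_le_pow_right₀ (U_one n) (Nat.le_add_left d' d)) (hw n i)
  have a3 := mul_le_mul_of_nonneg_left (U_two n)
    (mul_nonneg (pow_nonneg (zero_le_one.trans (U_one n)) (d + d')) (hw n i))
  rw [pow_succ]
  linarith [norm_add_le (iteratedDeriv i (g n) x) (iteratedDeriv i (g' n) x), h n i hi, h' n i hi]

theorem Tame.neg {g : ℕ → ℝ → 𝕜} (h : Tame x w g) : Tame x w fun n => -g n := by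
  obtain ⟨c, d, h⟩ := h
  exact ⟨fun n => (c n).neg, d, fun n i hi => by rw [iteratedDeriv_neg, norm_neg]; exact h n i hi⟩

theorem Tame.const (hw : ∀ n i, 1 ≤ w n i) (a : 𝕜) : Tame x w fun _ _ => a := by
  obtain ⟨d, hd⟩ := pow_unbounded_of_one_lt ‖a‖ (one_lt_two (α := ℝ))
  refine ⟨fun _ => contDiff_const, d, fun n i _ => ?_⟩
  have a1 : ‖iteratedDeriv i (fun _ : ℝ => a) x‖ ≤ ‖a‖ := by
    rw [iteratedDeriv_const]
    split_ifs <;> simp
  have a2 := pow_le_pow_left₀ (by norm_num) (U_two n) d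
  nlinarith [hw n i, norm_nonneg a]

theorem binom {k n : ℕ} (hk : k ≤ 2 * 3 ^ n) : ∑ i ∈ range (k + 1), (k.choose i : ℝ) ≤ U n := by
  have : ∑ i ∈ range (k + 1), (k.choose i : ℝ) = 2 ^ k := by exact_mod_cast Nat.sum_range_choose k
  rw [this]
  exact (pow_le_pow_right₀ one_le_two hk).trans ((W_ge n).2.2.1.trans (W_le n))

theorem Tame.mul {w' w'' : ℕ → ℕ → ℝ} {g g' : ℕ → ℝ → 𝕜} (h : Tame x w g) (h' : Tame x w' g')
    (hw : ∀ n i j, i + j ≤ 2 * 3 ^ n → w n i * w' n j ≤ w'' n (i + j)) (h0 : ∀ n i, 0 ≤ w'' n i) :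
    Tame x w'' fun n => g n * g' n := by
  obtain ⟨c, d, h⟩ := h
  obtain ⟨c', d', h'⟩ := h'
  refine ⟨fun n => (c n).mul (c' n), d + d' + 1, fun n k hk => ?_⟩
  rw [iteratedDeriv_mul (cd (c n) k) (cd (c' n) k)]
  have u0 := zero_le_one.trans (U_one n)
  refine (norm_sum_le _ _).trans ((sum_le_sum (g := fun i => (k.choose i : ℝ) *
    (U n ^ (d + d') * w'' n k)) fun i hi => ?_).trans ?_)
  · have hi' := Nat.lt_succ_iff.1 (mem_range.1 hi)
    have a1 := mul_le_mul (h n i (hi'.trans hk)) (h' n (k - i) (by omega)) (norm_nonneg _)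
      ((norm_nonneg _).trans (h n i (hi'.trans hk)))
    have a2 := hw n i (k - i) (by omega)
    rw [Nat.add_sub_cancel' hi'] at a2
    rw [norm_mul, norm_mul, RCLike.norm_natCast, mul_assoc]
    refine mul_le_mul_of_nonneg_left (a1.trans ?_) (by positivity)
    rw [mul_mul_mul_comm, ← pow_add]
    exact mul_le_mul_of_nonneg_left a2 (by positivity)
  · rw [← sum_mul, pow_succ]
    have := mul_le_mul_of_nonneg_right (binom hk) (mul_nonneg (pow_nonneg u0 (d + d')) (h0 n k))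
    linarith

theorem Tame.aeval (h1 : ∀ n i, 1 ≤ w n i) (hw : ∀ n i j, w n i * w n j ≤ w n (i + j))
    {F : ℕ → ℕ → ℝ → 𝕜} (hF : ∀ j, Tame x w fun n => F n j) (P : MvPolynomial ℕ 𝕜) :
    Tame x w fun n => MvPolynomial.aeval (F n) P := by
  have h0 := fun n i => zero_le_one.trans (h1 n i)
  induction P using MvPolynomial.induction_on with
  | C a => simp only [MvPolynomial.aeval_C]; exact Tame.const h1 a
  | add p q hp hq => simpa using hp.add h0 hq
  | mul_X p j hp => simpa using hp.mul (hF j) (fun n i j _ => hw n i j) h0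

end Pool.Agent.H.MP_30394b_an
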