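import Pool.Agent.H.MP_30394b_an.A

set_option autoImplicit false
open Real Filter Finset MvPolynomial
open scoped ContDiff

namespace Pool.Agent.H.MP_30394b_an

variable {𝕜 : Type*} [RCLike 𝕜]

/-- coefficients of the generators -/
noncomputable def c1 (j m : ℕ) : ℝ := if m.unpair.1 = j then 1 else 0

/-- coefficients with one term removed -/
noncomputable def c2 (n j m : ℕ) : ℝ := if m = n then 0 else c1 j m

theorem c1_le (j m : ℕ) : |c1 j m| ≤ 1 := by unfold c1; split_ifs <;> simp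

theorem c2_le (n j m : ℕ) : |c2 n j m| ≤ 1 := by
  unfold c2; split_ifs
  · simp
  · exact c1_le j m

variable (𝕜) in
/-- the generators -/
noncomputable def f (j : ℕ) (x : ℝ) : 𝕜 := (D (c1 j) 0 x : ℝ)

variable (𝕜) in
/-- the generators with one term removed -/
noncomputable def F (n j : ℕ) (x : ℝ) : 𝕜 := (D (c2 n j) 0 x : ℝ)

variable (𝕜) in
/-- the removed term -/
noncomputable def Hb (n : ℕ) (x : ℝ) : 𝕜 := (hh 0 n x : ℝ)

theorem f_eq (n j : ℕ) : f 𝕜 j = F 𝕜 n j + (fun _ => ((c1 j n : ℝ) : 𝕜)) * Hb 𝕜 n := by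
  funext x
  have : D (c1 j) 0 x = c1 j n * hh 0 n x + D (c2 n j) 0 x := by
    unfold D
    rw [(term_summable (c1_le j) 0 x).tsum_eq_add_tsum_ite n]
    congr 2
    funext m
    unfold c2
    split_ifs <;> simp
  simp only [f, F, Hb, this, Pi.add_apply, Pi.mul_apply]
  push_cast
  ring

/-- weight of the removed term -/
noncomputable def v (n i : ℕ) : ℝ := B n ^ i / B n ^ (3 ^ n)

/-- weight of the generators -/
noncomputable def w (n i : ℕ) : ℝ := max 1 (v n i)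

theorem v0 (n i : ℕ) : 0 ≤ v n i := by have := B_one n; unfold v; positivity

theorem w1 (n i : ℕ) : 1 ≤ w n i := le_max_left _ _

theorem w0 (n i : ℕ) : 0 ≤ w n i := zero_le_one.trans (w1 n i)

theorem vw (n i j : ℕ) : v n i * w n j ≤ v n (i + j) := by
  have h := B_one n
  have : w n j ≤ B n ^ j := max_le (one_le_pow₀ h) (div_le_self (by positivity) (one_le_pow₀ h))
  refine (mul_le_mul_of_nonneg_left this (v0 n i)).trans (le_of_eq ?_)
  unfold v
  rw [pow_add]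
  ring

theorem ww (n i j : ℕ) : w n i * w n j ≤ w n (i + j) := by
  rcases max_choice 1 (v n i) with h | h
  · rw [w, h, one_mul]
    exact max_le_max le_rfl (div_le_div_of_nonneg_right
      (pow_le_pow_right₀ (B_one n) (Nat.le_add_left _ _)) (pow_nonneg (by linarith [B_one n]) _))
  · rw [w, h]
    exact (vw n i j).trans (le_max_right _ _)

theorem vv (n i j : ℕ) (h : i + j ≤ 2 * 3 ^ n) : v n i * v n j ≤ 1 := by
  have h1 := B_one n
  unfold v
  rw [div_mul_div_comm, ← pow_add, ← pow_add, div_le_one (by positivity)]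
  exact pow_le_pow_right₀ h1 (by omega)

variable {x : ℝ}

theorem Tame.mono {a b : ℕ → ℕ → ℝ} {g : ℕ → ℝ → 𝕜} (h : Tame x a g) (hab : ∀ n i, a n i ≤ b n i) :
    Tame x b g := by
  obtain ⟨c, d, h⟩ := h
  exact ⟨c, d, fun n i hi => (h n i hi).trans
    (mul_le_mul_of_nonneg_left (hab n i) (pow_nonneg (by linarith [U_one n]) _))⟩

theorem H_der (n k : ℕ) : iteratedDeriv k (Hb 𝕜 n) x = (hh k n x : ℝ) :=
  congrFun ((chain (𝕜 := 𝕜) (g := fun k => hh k n) fun k => hh_deriv k n).2 k) x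

theorem H_tame : Tame x v (Hb 𝕜) :=
  ⟨fun n => (chain (g := fun k => hh k n) fun k => hh_deriv k n).1, 0, fun n i _ => by
    rw [H_der, RCLike.norm_ofReal, pow_zero, one_mul]; exact hh_le i n x⟩

theorem F_tame (j : ℕ) : Tame x (fun _ _ => 1) fun n => F 𝕜 n j :=
  ⟨fun n => (chain (D_deriv (c2_le n j))).1, 1, fun n i hi => by
    have : iteratedDeriv i (F 𝕜 n j) x = (D (c2 n j) i x : ℝ) :=
      congrFun ((chain (𝕜 := 𝕜) (D_deriv (c2_le n j))).2 i) x
    rw [this, RCLike.norm_ofReal, pow_one, mul_one]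
    exact D_le (c2_le n j) (by simp [c2]) hi x⟩

theorem Hw : Tame x w (Hb 𝕜) := H_tame.mono fun _ _ => le_max_right _ _

theorem f_tame (j : ℕ) : Tame x w fun _ => f 𝕜 j := by
  have a : Tame x w fun n _ => ((c1 j n : ℝ) : 𝕜) := ⟨fun _ => contDiff_const, 0, fun n i _ => by
    have := c1_le j n
    rw [iteratedDeriv_const, pow_zero, one_mul]
    refine le_trans ?_ (w1 n i)
    split_ifs
    · rwa [RCLike.norm_ofReal]
    · simp⟩
  have := ((F_tame (𝕜 := 𝕜) j).mono w1).add w0 (a.mul Hw (fun n i j _ => ww n i j) w0)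
  simpa only [← f_eq] using this

theorem taylor (j : ℕ) (P : MvPolynomial ℕ 𝕜) : ∃ R, Tame x w R ∧ ∀ n, n.unpair.1 = j →
    aeval (F 𝕜 n) P = aeval (f 𝕜) P - Hb 𝕜 n * aeval (f 𝕜) (pderiv j P) + Hb 𝕜 n * (Hb 𝕜 n * R n) := by
  have m := fun n i j (_ : i + j ≤ 2 * 3 ^ n) => ww n i j
  induction P using MvPolynomial.induction_on with
  | C a => exact ⟨fun _ _ => 0, Tame.const w1 0, fun n _ => by funext y; simp⟩
  | add p q hp hq =>
    obtain ⟨R, h1, h2⟩ := hp
    obtain ⟨R', h3, h4⟩ := hq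
    exact ⟨_, h1.add w0 h3, fun n hn => by simp only [map_add, h2 n hn, h4 n hn]; ring⟩
  | mul_X p i hp =>
    obtain ⟨R, h1, h2⟩ := hp
    by_cases e : i = j
    · subst e
      refine ⟨_, ((h1.mul (f_tame i) m w0).add w0 (Tame.aeval w1 ww f_tame (pderiv i p))).add w0
        (Hw.mul h1 m w0).neg, fun n hn => ?_⟩
      have : F 𝕜 n i = f 𝕜 i - Hb 𝕜 n := by
        rw [f_eq n i]; funext y; simp [c1, hn]
      simp only [pderiv_mul, pderiv_X_self, map_add, map_mul, aeval_X, h2 n hn, this, map_one]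
      ring
    · refine ⟨_, h1.mul (f_tame i) m w0, fun n hn => ?_⟩
      have : F 𝕜 n i = f 𝕜 i := by
        rw [f_eq n i]; funext y; simp [c1, hn, Ne.symm e]
      simp only [pderiv_mul, pderiv_X_of_ne e, map_add, map_mul, aeval_X, h2 n hn, this, map_zero]
      ring

theorem cos_big (y : ℝ) (k : ℕ) : 1 / 2 ≤ |cos (y + k * (π / 2))| ∨
    1 / 2 ≤ |cos (y + (k + 1 : ℕ) * (π / 2))| := by
  have : y + ((k + 1 : ℕ) : ℝ) * (π / 2) = (y + k * (π / 2)) + π / 2 := by push_cast; ring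
  rw [this, cos_add_pi_div_two, abs_neg]
  by_contra h
  push Not at h
  have := sin_sq_add_cos_sq (y + k * (π / 2))
  rw [← sq_abs (sin _), ← sq_abs (cos _)] at this
  nlinarith [abs_nonneg (sin (y + k * (π / 2))), abs_nonneg (cos (y + k * (π / 2)))]

theorem lead {u : ℝ → 𝕜} (hu : ContDiff ℝ ∞ u) {d i0 n l : ℕ}
    (h : ∀ i, i ≤ 2 * 3 ^ n → ‖iteratedDeriv i u x‖ ≤ U n ^ d * w n i)
    (hz : ∀ i < i0, iteratedDeriv i u x = 0) (hn : i0 + 1 ≤ 3 ^ n) (hl : i0 + (l + 1) ≤ 2 * 3 ^ n)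
    (hc : 1 / 2 ≤ |cos (B n * x + (l + 1 : ℕ) * (π / 2))|) :
    v n l * (‖iteratedDeriv i0 u x‖ * B n / 2 - U n ^ (d + 1)) ≤
      ‖iteratedDeriv (i0 + (l + 1)) (u * Hb 𝕜 n) x‖ := by
  have b1 := B_one n
  have u0 := zero_le_one.trans (U_one n)
  obtain ⟨k, hk⟩ : ∃ k, k = i0 + (l + 1) := ⟨_, rfl⟩
  rw [← hk] at hl ⊢
  rw [iteratedDeriv_mul (cd hu k) (cd (H_tame (x := x).1 n) k),
    ← add_sum_erase _ _ (show i0 ∈ range (k + 1) from mem_range.2 (by omega))]
  refine le_trans ?_ (norm_sub_le_norm_add _ _)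
  rw [mul_sub]
  refine sub_le_sub ?_ ((norm_sum_le _ _).trans ((sum_le_sum (g := fun i => (k.choose i : ℝ) *
    (U n ^ d * v n l)) fun i hi => ?_).trans ?_))
  · rw [norm_mul, norm_mul, RCLike.norm_natCast, H_der, RCLike.norm_ofReal,
      show k - i0 = l + 1 by omega, hh, abs_mul, abs_of_nonneg (by positivity : 0 ≤ B n ^ (l + 1) / _)]
    have a1 : (1 : ℝ) ≤ k.choose i0 := by exact_mod_cast Nat.choose_pos (show i0 ≤ k by omega)
    calc _ = 1 * ‖iteratedDeriv i0 u x‖ * (B n ^ (l + 1) / B n ^ 3 ^ n * (1 / 2)) := by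
          unfold v; rw [pow_succ]; ring
      _ ≤ _ := by gcongr
  · obtain ⟨hi1, hi2⟩ := mem_erase.1 hi
    have hi' := Nat.lt_succ_iff.1 (mem_range.1 hi2)
    have := v0 n l
    rcases lt_or_gt_of_ne hi1 with e | e
    · rw [hz i e, mul_zero, zero_mul, norm_zero]; positivity
    rw [norm_mul, norm_mul, RCLike.norm_natCast, H_der, RCLike.norm_ofReal, mul_assoc]
    refine mul_le_mul_of_nonneg_left ((mul_le_mul (h i (hi'.trans hl)) (hh_le _ n x) (abs_nonneg _)
      (mul_nonneg (by positivity) (w0 n i))).trans ?_) (by positivity)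
    rw [mul_assoc]
    refine mul_le_mul_of_nonneg_left ?_ (by positivity)
    unfold v
    rw [← mul_div_assoc]
    refine div_le_div_of_nonneg_right ?_ (by positivity)
    rcases max_choice 1 (v n i) with h | h
    · rw [w, h, one_mul]
      exact pow_le_pow_right₀ b1 (by omega)
    · rw [w, h, v, div_mul_eq_mul_div, ← pow_add, div_le_iff₀ (by positivity), ← pow_add]
      exact pow_le_pow_right₀ b1 (by omega)
  · have a1 := sum_le_sum_of_subset_of_nonneg (f := fun i => (k.choose i : ℝ))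
      (erase_subset i0 (range (k + 1))) fun _ _ _ => by positivity
    rw [← sum_mul, pow_succ]
    have := mul_le_mul_of_nonneg_right (a1.trans (binom hl)) (mul_nonneg (pow_nonneg u0 d) (v0 n l))
    linarith

theorem step (P : MvPolynomial ℕ 𝕜) (j : ℕ)
    (hP : ∃ i, iteratedDeriv i (aeval (f 𝕜) (pderiv j P)) x ≠ 0) {r : ℝ} (hr : 0 < r) (K : ℝ) :
    ¬ ∀ k, ‖iteratedDeriv k (aeval (f 𝕜) P) x‖ / k.factorial * r ^ k ≤ K := by
  classical
  intro hK
  have K0 : 0 ≤ K := le_trans (by positivity) (hK 0)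
  obtain ⟨R, h1, h2⟩ := taylor (x := x) j P
  obtain ⟨s1, d1, t1⟩ := Tame.aeval (x := x) (w := fun _ _ => 1) (fun _ _ => le_rfl)
    (fun _ _ _ => by simp) F_tame P
  obtain ⟨s2, d2, t2⟩ := Tame.aeval (x := x) w1 ww f_tame (pderiv j P)
  obtain ⟨s3, d3, t3⟩ := H_tame.mul (H_tame.mul h1 (fun n i j _ => vw n i j) v0) vv
    (fun _ _ => zero_le_one)
  have s4 := (Tame.aeval (x := x) w1 ww f_tame P).1 0
  beta_reduce at s1 t1 s3 t3 s4
  obtain ⟨u, hu⟩ : ∃ u, u = aeval (f 𝕜) (pderiv j P) := ⟨_, rfl⟩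
  simp only [← hu] at hP h2 s2 t2
  obtain ⟨μ, hμ⟩ : ∃ μ, μ = ‖iteratedDeriv (Nat.find hP) u x‖ := ⟨_, rfl⟩
  have μ0 : 0 < μ := hμ ▸ norm_pos_iff.2 (Nat.find_spec hP)
  obtain ⟨N, hN⟩ := exists_nat_gt (max (1 / r) (2 * (3 + K) / μ))
  obtain ⟨d, hd⟩ : ∃ d, d = d1 + d2 + d3 + 1 := ⟨_, rfl⟩
  obtain ⟨n, hn, e⟩ : ∃ n, N + d + Nat.find hP + 2 ≤ n ∧ n.unpair.1 = j :=
    ⟨Nat.pair j (N + d + Nat.find hP + 2), Nat.right_le_pair _ _, by simp⟩
  have n3 : n < 3 ^ n := Nat.lt_pow_self (by norm_num)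
  obtain ⟨l, l1, l2, l3⟩ : ∃ l, 3 ^ n ≤ l ∧ Nat.find hP + (l + 1) ≤ 2 * 3 ^ n ∧
      1 / 2 ≤ |cos (B n * x + (l + 1 : ℕ) * (π / 2))| := by
    rcases cos_big (B n * x) (3 ^ n + 1) with h | h
    · exact ⟨3 ^ n, le_rfl, by omega, h⟩
    · exact ⟨3 ^ n + 1, by omega, by omega, h⟩
  have a1 := lead (s2 0) (t2 n) (fun i hi => not_not.1 (Nat.find_min hP hi)) (by omega) l2 l3
  obtain ⟨k, hk⟩ : ∃ k, k = Nat.find hP + (l + 1) := ⟨_, rfl⟩
  rw [← hk] at a1 l2
  rw [← hμ] at a1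
  have a2 : u * Hb 𝕜 n = aeval (f 𝕜) P - aeval (F 𝕜 n) P + Hb 𝕜 n * (Hb 𝕜 n * R n) := by
    rw [h2 n e]; ring
  have s5 : ContDiff ℝ ∞ (aeval (f 𝕜) P - aeval (F 𝕜 n) P) := s4.sub (s1 n)
  rw [a2, iteratedDeriv_add (cd s5 k) (cd (s3 n) k),
    iteratedDeriv_sub (cd s4 k) (cd (s1 n) k)] at a1
  have u1 := U_one n
  have b1 : ‖iteratedDeriv k (aeval (F 𝕜 n) P) x‖ ≤ U n ^ d :=
    (t1 n k l2).trans (by rw [mul_one]; exact pow_le_pow_right₀ u1 (show d1 ≤ d by omega))
  have b3 : ‖iteratedDeriv k (Hb 𝕜 n * (Hb 𝕜 n * R n)) x‖ ≤ U n ^ d :=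
    (t3 n k l2).trans (by rw [mul_one]; exact pow_le_pow_right₀ u1 (show d3 ≤ d by omega))
  have b2 := pow_le_pow_right₀ u1 (show d2 + 1 ≤ d by omega)
  have b4 : U n ^ d * U n ≤ B n := by rw [← pow_succ]; exact pow_le_pow_right₀ u1 (by omega)
  have b5 : 1 ≤ v n l := by
    have := B_one n
    rw [v, one_le_div (by positivity)]
    exact pow_le_pow_right₀ this l1
  have nN : (N : ℝ) ≤ n := by exact_mod_cast (show N ≤ n by omega)
  have b6 : 2 * (3 + K) < U n * μ := by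
    rw [← div_lt_iff₀ μ0]
    linarith [le_max_right (1 / r) (2 * (3 + K) / μ), (W_ge n).2.1, W_le n]
  have b7 : ‖iteratedDeriv k (aeval (f 𝕜) P) x‖ ≤ K * U n ^ d := by
    have c1 : (k.factorial : ℝ) * (1 / r) ^ k ≤ U n ^ d := by
      refine le_trans ?_ (((W_ge n).2.2.2.trans (W_le n)).trans (le_self_pow₀ u1 (by omega)))
      have n1 : (1 : ℝ) ≤ n := by exact_mod_cast (show 1 ≤ n by omega)
      exact mul_le_mul (by exact_mod_cast Nat.factorial_le l2) ((pow_le_pow_left₀ (by positivity)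
        (by linarith [le_max_left (1 / r) (2 * (3 + K) / μ)]) k).trans (pow_le_pow_right₀ n1 l2))
        (by positivity) (by positivity)
    have c2 := hK k
    rw [← le_div_iff₀ (by positivity), div_le_iff₀ (by positivity)] at c2
    refine c2.trans (le_trans (le_of_eq ?_) (mul_le_mul_of_nonneg_left c1 K0))
    rw [one_div_pow]
    ring
  have p0 : 0 < U n ^ d := by positivity
  have b8 : (2 + K) * U n ^ d < μ * B n / 2 - U n ^ (d2 + 1) := by
    nlinarith [mul_le_mul_of_nonneg_left b4 μ0.le, mul_lt_mul_of_pos_left b6 p0]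
  have b9 := (norm_add_le _ _).trans (add_le_add ((norm_sub_le _ _).trans (add_le_add b7 b1)) b3)
  have b10 := mul_nonneg (show 0 ≤ 2 + K by linarith) p0.le
  have b11 := mul_le_mul_of_nonneg_right b5 (b10.trans b8.le)
  linarith

theorem main (N : ℕ) : ∀ P : MvPolynomial ℕ 𝕜, P.totalDegree = N → N ≠ 0 → ∀ r > 0, ∀ K : ℝ,
    ¬ ∀ k, ‖iteratedDeriv k (aeval (f 𝕜) P) x‖ / k.factorial * r ^ k ≤ K := by
  classical
  induction N using Nat.strong_induction_on with
  | _ N ih =>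
    intro P hP h0 r hr K
    have hne : P.support.Nonempty := by
      rw [support_nonempty]; rintro rfl; exact h0 (by simpa using hP.symm)
    obtain ⟨s, hs, e⟩ := exists_mem_eq_sup _ hne fun s : ℕ →₀ ℕ => s.sum fun _ e => e
    obtain ⟨j, hj⟩ : ∃ j, s j ≠ 0 := by
      by_contra hn
      push Not at hn
      rw [show s = 0 from Finsupp.ext hn] at e
      exact h0 (hP.symm.trans e)
    have n0 : pderiv j P ≠ 0 := fun h => by
      have := coeff_pderiv (i := j) P (s - Finsupp.single j 1)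
      rw [h, tsub_add_cancel_of_le (Finsupp.single_le_iff.2 (Nat.pos_of_ne_zero hj))] at this
      exact mul_ne_zero (mem_support_iff.1 hs) (Nat.cast_add_one_ne_zero _) this.symm
    have lt : (pderiv j P).totalDegree < N := by
      rw [totalDegree, Finset.sup_lt_iff (Nat.pos_of_ne_zero h0)]
      intro m hm
      have a1 := mem_support_iff.1 hm
      rw [coeff_pderiv] at a1
      have a2 := le_totalDegree (mem_support_iff.2 (left_ne_zero_of_mul a1))
      rw [Finsupp.sum_add_index' (by simp) (by simp), Finsupp.sum_single_index rfl] at a2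
      omega
    refine step P j ?_ hr K
    by_cases c : (pderiv j P).totalDegree = 0
    · refine ⟨0, fun h => n0 ?_⟩
      rw [totalDegree_eq_zero_iff_eq_C] at c
      rw [c] at h ⊢
      simp only [aeval_C, iteratedDeriv_zero] at h
      rw [show coeff 0 (pderiv j P) = 0 from h, C_0]
    · by_contra hn
      push Not at hn
      exact ih _ lt _ rfl c 1 one_pos 0 fun k => by simp [hn k]

theorem smooth (P : MvPolynomial ℕ 𝕜) : ContDiff ℝ ∞ (aeval (f 𝕜) P) :=
  (Tame.aeval (x := 0) w1 ww f_tame P).1 0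

end Pool.Agent.H.MP_30394b_an
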